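import Pool.Agent.MWI.StmtsE

/-!
# Row DCN of MWI: decomposition of a word with names (helper75)
-/

set_option autoImplicit false

namespace Pool.Agent.MWI.H75

open Pool.Agent.Helper14_MV Pool.Agent.Helper2_MV Pool.Agent.MWF Pool.Agent.MWI

/-- rename `t` to `1` and `n` to `0`, delete the other letters -/
def gg (t n c : ℕ) : List ℕ := if c = t then [1] else if c = n then [0] else []

theorem filter_flat (p : ℕ → Bool) (g : ℕ → List ℕ) (h : ∀ c, p c = false → g c = [])
    (w : List ℕ) : (w.filter p).flatMap g = w.flatMap g := by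
  induction w with
  | nil => rfl
  | cons c w ih =>
    by_cases hc : p c = true
    · rw [List.filter_cons_of_pos hc, List.flatMap_cons, List.flatMap_cons, ih]
    · rw [List.filter_cons_of_neg hc, List.flatMap_cons, ih,
        h c (by simpa using hc), List.nil_append]

theorem flat_nil (g : ℕ → List ℕ) (w : List ℕ) (h : ∀ c ∈ w, g c = []) : w.flatMap g = [] := by
  rw [List.flatMap_eq_nil_iff]
  exact h

theorem ts_flat (i n : ℕ) (hn : n % 3 = 0) (L : List ℕ) :
    (ts L).flatMap (gg (3 * i + 1) n) = List.replicate (L.count i) 1 := by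
  induction L with
  | nil => rfl
  | cons a L ih =>
    have e : ts (a :: L) = (3 * a + 1) :: ts L := rfl
    rw [e, List.flatMap_cons, ih]
    by_cases h : a = i
    · subst h
      rw [List.count_cons_self, List.replicate_succ]
      unfold gg
      rw [if_pos rfl]
      rfl
    · rw [List.count_cons_of_ne h]
      unfold gg
      rw [if_neg (by omega), if_neg (by omega), List.nil_append]

/-- the projection of the hypothesis -/
theorem proj {β : FIC} {P Q D w : List ℕ} (hD : D.Nodup) (hP : (P ++ Q).Perm D) {j : ℕ}
    (hr : RR β (w.filter (fun c => decide (c = 3 * j ∨ c % 3 = 1)))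
      (ts P ++ 3 * j :: 3 * j :: ts Q)) (i : ℕ) (hi : i ∈ D) :
    RR β (w.flatMap (gg (3 * i + 1) (3 * j)))
      (if i ∈ P then [1, 0, 0] else [0, 0, 1]) := by
  have h1 := hr.sub (gg (3 * i + 1) (3 * j))
  rw [filter_flat _ _ (by
    intro c hc
    have hc' : ¬ (c = 3 * j ∨ c % 3 = 1) := by simpa using hc
    unfold gg
    rw [if_neg (by omega), if_neg (by omega)])] at h1
  have hnd : (P ++ Q).Nodup := hP.nodup_iff.2 hD
  have hcnt : (P ++ Q).count i = 1 := List.count_eq_one_of_mem hnd (hP.mem_iff.2 hi)
  rw [List.count_append] at hcnt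
  have e1 : gg (3 * i + 1) (3 * j) (3 * j) = [0] := by
    unfold gg
    rw [if_neg (by omega), if_pos rfl]
  have e2 : (ts P ++ 3 * j :: 3 * j :: ts Q).flatMap (gg (3 * i + 1) (3 * j)) =
      List.replicate (P.count i) 1 ++ (0 :: 0 :: List.replicate (Q.count i) 1) := by
    rw [List.flatMap_append, ts_flat i _ (by omega), List.flatMap_cons, List.flatMap_cons,
      ts_flat i _ (by omega), e1]
    rfl
  rw [e2] at h1
  by_cases hiP : i ∈ P
  · have h2 : P.count i = 1 := by
      have := List.count_pos_iff.2 hiP
      omega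
    have h3 : Q.count i = 0 := by omega
    rw [h2, h3] at h1
    rw [if_pos hiP]
    exact h1
  · have h2 : P.count i = 0 := List.count_eq_zero.2 hiP
    have h3 : Q.count i = 1 := by omega
    rw [h2, h3] at h1
    rw [if_neg hiP]
    exact h1

theorem first_occ {c : ℕ} {w : List ℕ} (h : c ∈ w) : ∃ A B, w = A ++ c :: B ∧ c ∉ A := by
  induction w with
  | nil => exact absurd h List.not_mem_nil
  | cons a w ih =>
    by_cases hc : a = c
    · exact ⟨[], w, by rw [hc]; rfl, List.not_mem_nil⟩
    · have h' : c ∈ w := by
        rcases List.mem_cons.1 h with h1 | h1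
        · exact absurd h1.symm hc
        · exact h1
      obtain ⟨A, B, h1, h2⟩ := ih h'
      refine ⟨a :: A, B, by rw [h1]; rfl, ?_⟩
      intro h3
      rcases List.mem_cons.1 h3 with h4 | h4
      · exact hc h4.symm
      · exact h2 h4

/-- no names before the letters `t_i`, `i ∈ P` -/
theorem split_pl (R : List ℕ) : ∀ (P w : List ℕ), P.Nodup → w.filter nz = pl P ++ R →
    (∀ i ∈ P, ∀ A B, w = A ++ (3 * i + 1) :: B → (3 * i + 1) ∉ A → ∀ n ∈ A, n % 3 ≠ 0) →
    ∃ w1, w = pl P ++ w1 ∧ w1.filter nz = R
  | [], w, _, hw, _ => ⟨w, rfl, hw⟩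
  | i :: P, w, hnd, hw, H => by
    have e0 : pl (i :: P) = (3 * i + 2) :: (3 * i + 1) :: pl P := rfl
    rw [e0] at hw ⊢
    have hmem : ∀ w' : List ℕ, (3 * i + 1) ∈ w'.filter nz → (3 * i + 1) ∈ w' :=
      fun w' h => (List.mem_filter.1 h).1
    cases w with
    | nil => exact absurd hw (by simp)
    | cons c w' =>
      have hc : nz c = true := by
        by_contra hc
        have hc0 : c % 3 = 0 := by
          unfold nz at hc
          simpa using hc
        have h1 : (3 * i + 1) ∈ w' := by
          rw [List.filter_cons_of_neg hc] at hw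
          apply hmem
          rw [hw]
          simp
        obtain ⟨A, B, h2, h3⟩ := first_occ h1
        refine H i List.mem_cons_self (c :: A) B (by rw [h2]; rfl) ?_ c List.mem_cons_self hc0
        intro h4
        rcases List.mem_cons.1 h4 with h5 | h5
        · omega
        · exact h3 h5
      rw [List.filter_cons_of_pos hc] at hw
      obtain ⟨hc1, hw1⟩ := List.cons_eq_cons.1 hw
      cases w' with
      | nil => exact absurd hw1 (by simp)
      | cons d w'' =>
        have hd : nz d = true := by
          by_contra hd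
          have hd0 : d % 3 = 0 := by
            unfold nz at hd
            simpa using hd
          have h1 : (3 * i + 1) ∈ w'' := by
            rw [List.filter_cons_of_neg hd] at hw1
            apply hmem
            rw [hw1]
            simp
          obtain ⟨A, B, h2, h3⟩ := first_occ h1
          refine H i List.mem_cons_self (c :: d :: A) B (by rw [h2]; rfl) ?_ d (by simp) hd0
          intro h4
          rcases List.mem_cons.1 h4 with h5 | h5
          · omega
          · rcases List.mem_cons.1 h5 with h6 | h6
            · omega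
            · exact h3 h6
        rw [List.filter_cons_of_pos hd] at hw1
        obtain ⟨hd1, hw2⟩ := List.cons_eq_cons.1 hw1
        rw [List.nodup_cons] at hnd
        obtain ⟨w1, h1, h2⟩ := split_pl R P w'' hnd.2 hw2 (by
          intro i' hi' A B hA hn n hnA
          have hne : i' ≠ i := fun h => hnd.1 (h ▸ hi')
          refine H i' (List.mem_cons_of_mem _ hi') (c :: d :: A) B (by rw [hA]; rfl) ?_ n
            (List.mem_cons_of_mem _ (List.mem_cons_of_mem _ hnA))
          intro h4
          rcases List.mem_cons.1 h4 with h5 | h5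
          · omega
          · rcases List.mem_cons.1 h5 with h6 | h6
            · omega
            · exact hn h6)
        exact ⟨w1, by rw [hc1, hd1, h1]; rfl, h2⟩

theorem cut (w : List ℕ) : ∃ M Y : List ℕ, w = M ++ Y ∧ (∀ c ∈ M, c % 3 ≠ 1) ∧
    (∀ a l, Y = a :: l → a % 3 = 1) := by
  induction w with
  | nil => exact ⟨[], [], rfl, by simp, by simp⟩
  | cons c w ih =>
    by_cases hc : c % 3 = 1
    · refine ⟨[], c :: w, rfl, by simp, ?_⟩
      intro a l h
      rw [← (List.cons_eq_cons.1 h).1]
      exact hc
    · obtain ⟨M, Y, h1, h2, h3⟩ := ih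
      refine ⟨c :: M, Y, by rw [h1]; rfl, ?_, h3⟩
      intro d hd
      rcases List.mem_cons.1 hd with h4 | h4
      · rw [h4]; exact hc
      · exact h2 d h4

theorem uniq_cut : ∀ (A A' B B' : List ℕ), A ++ B = A' ++ B' → (∀ c ∈ A, c % 3 ≠ 1) →
    (∀ c ∈ A', c % 3 ≠ 1) → (∀ a l, B = a :: l → a % 3 = 1) → (∀ a l, B' = a :: l → a % 3 = 1) →
    A = A' ∧ B = B'
  | [], [], B, B', h, _, _, _, _ => ⟨rfl, h⟩
  | [], c :: A', B, B', h, _, h2, h3, _ => by
    exfalso
    exact h2 c List.mem_cons_self (h3 c (A' ++ B') h)
  | c :: A, [], B, B', h, h1, _, _, h4 => by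
    exfalso
    exact h1 c List.mem_cons_self (h4 c (A ++ B) h.symm)
  | c :: A, c' :: A', B, B', h, h1, h2, h3, h4 => by
    have h5 : c :: (A ++ B) = c' :: (A' ++ B') := h
    obtain ⟨e1, e2⟩ := List.cons_eq_cons.1 h5
    obtain ⟨e3, e4⟩ := uniq_cut A A' B B' e2 (fun d hd => h1 d (List.mem_cons_of_mem _ hd))
      (fun d hd => h2 d (List.mem_cons_of_mem _ hd)) h3 h4
    exact ⟨by rw [e1, e3], e4⟩

theorem flat_M (t n : ℕ) (ht : t % 3 = 1) (hn : n % 3 = 0) : ∀ M : List ℕ, (∀ c ∈ M, c % 3 ≠ 1) →
    M.flatMap (gg t n) = List.replicate (M.count n) 0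
  | [], _ => rfl
  | c :: M, h => by
    have h1 := h c List.mem_cons_self
    rw [List.flatMap_cons, flat_M t n ht hn M (fun d hd => h d (List.mem_cons_of_mem _ hd))]
    by_cases hc : c = n
    · rw [hc, List.count_cons_self, List.replicate_succ]
      unfold gg
      rw [if_neg (by omega), if_pos rfl]
      rfl
    · rw [List.count_cons_of_ne hc]
      unfold gg
      rw [if_neg (by omega), if_neg hc, List.nil_append]

theorem rep_two {m : ℕ} {l v : List ℕ} (h : List.replicate m 0 ++ 1 :: l = 0 :: 0 :: v) :
    2 ≤ m := by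
  rcases m with _ | _ | m
  · have h1 : (1 : ℕ) = 0 := (List.cons_eq_cons.1 h).1
    omega
  · have h0 : (0 : ℕ) :: 1 :: l = 0 :: 0 :: v := h
    have h1 : (1 : ℕ) = 0 := (List.cons_eq_cons.1 (List.cons_eq_cons.1 h0).2).1
    omega
  · omega

/-- **DCN** -/
theorem dcn : DcnStmt := by
  intro β hI hO1 hO2 P Q D w hD hP hnam hw hr
  have hnd : (P ++ Q).Nodup := hP.nodup_iff.2 hD
  have hPn : P.Nodup := (List.nodup_append.1 hnd).1
  have hPQ : ∀ i ∈ P, i ∉ Q := fun i hi hq => (List.nodup_append.1 hnd).2.2 i hi i hq rfl
  obtain ⟨w1, hw1, hf1⟩ := split_pl (zz D ++ pr Q) P w hPn hw (by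
    intro i hi A B hA hn n hnA hn0
    have hnw : n ∈ w := by rw [hA]; exact List.mem_append_left _ hnA
    obtain ⟨j, hj, hnj⟩ : ∃ j < 3, n = 3 * j := by
      rcases hnam n hnw hn0 with h | h | h
      · exact ⟨0, by norm_num, by omega⟩
      · exact ⟨1, by norm_num, by omega⟩
      · exact ⟨2, by norm_num, by omega⟩
    have h1 := proj hD hP (hr j hj) i (hP.mem_iff.1 (List.mem_append_left _ hi))
    rw [if_pos hi] at h1
    obtain ⟨v', hv'⟩ := hO1 _ h1.symm
    rw [hA, List.flatMap_append] at hv'
    have h2 : ∀ L : List ℕ, (3 * i + 1) ∉ L → n ∈ L →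
        ∃ l, L.flatMap (gg (3 * i + 1) (3 * j)) = 0 :: l := by
      intro L
      induction L with
      | nil => intro _ h; exact absurd h List.not_mem_nil
      | cons c L ih =>
        intro h3 h4
        rw [List.flatMap_cons]
        have hc : c ≠ 3 * i + 1 := fun h => h3 (h ▸ List.mem_cons_self)
        by_cases hcn : c = 3 * j
        · refine ⟨L.flatMap (gg (3 * i + 1) (3 * j)), ?_⟩
          unfold gg
          rw [if_neg hc, if_pos hcn]
          rfl
        · have h5 : n ∈ L := by
            rcases List.mem_cons.1 h4 with h6 | h6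
            · omega
            · exact h6
          obtain ⟨l, hl⟩ := ih (fun h => h3 (List.mem_cons_of_mem _ h)) h5
          refine ⟨l, ?_⟩
          rw [hl]
          unfold gg
          rw [if_neg hc, if_neg hcn]
          rfl
    obtain ⟨l, hl⟩ := h2 A hn hnA
    rw [hl] at hv'
    have h6 : (0 : ℕ) = 1 := (List.cons_eq_cons.1 hv').1
    omega)
  obtain ⟨M, Y, hMY, hM, hY⟩ := cut w1
  rw [hMY, List.filter_append] at hf1
  have hYf : ∀ a l, Y.filter nz = a :: l → a % 3 = 1 := by
    intro a l h
    cases Y with
    | nil => exact absurd h (by simp)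
    | cons b Y' =>
      have hb := hY b Y' rfl
      have hnb : nz b = true := by
        unfold nz
        simp
        omega
      rw [List.filter_cons_of_pos hnb] at h
      rw [← (List.cons_eq_cons.1 h).1]
      exact hb
  have hQf : ∀ a l, pr Q = a :: l → a % 3 = 1 := by
    intro a l h
    cases Q with
    | nil => exact absurd h (by simp [pr])
    | cons q Q' =>
      have e : pr (q :: Q') = (3 * q + 1) :: (3 * q + 2) :: pr Q' := rfl
      rw [e] at h
      have := (List.cons_eq_cons.1 h).1
      omega
  obtain ⟨hMf, hYq⟩ := uniq_cut _ _ _ _ hf1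
    (fun c hc => hM c (List.mem_filter.1 hc).1)
    (fun c hc => by
      unfold zz at hc
      rw [List.mem_map] at hc
      obtain ⟨i, _, hi⟩ := hc
      omega) hYf hQf
  have hw' : w = pl P ++ (M ++ Y) := by rw [hw1, hMY]
  refine ⟨M, Y, hw', hM, hY, hMf, hYq, ?_⟩
  intro j hj
  cases Q with
  | nil =>
    have hY0 : Y = [] := by
      cases Y with
      | nil => rfl
      | cons b Y' =>
        exfalso
        have hb := hY b Y' rfl
        have hnb : nz b = true := by
          unfold nz
          simp
          omega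
        rw [List.filter_cons_of_pos hnb] at hYq
        exact absurd hYq (by simp [pr])
    have h1 := (hr j hj).sub (fun c => if c = 3 * j then [0] else [])
    rw [filter_flat _ _ (by
      intro c hc
      have hc' : ¬ (c = 3 * j ∨ c % 3 = 1) := by simpa using hc
      rw [if_neg (by omega)])] at h1
    have e1 : (ts P ++ 3 * j :: 3 * j :: ts []).flatMap (fun c => if c = 3 * j then [0] else []) =
        [0, 0] := by
      rw [List.flatMap_append, flat_nil _ (ts P) (by
        intro c hc
        unfold ts at hc
        rw [List.mem_map] at hc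
        obtain ⟨i, _, hi⟩ := hc
        rw [if_neg (by omega)])]
      simp [ts]
    have e2 : w.flatMap (fun c => if c = 3 * j then [0] else []) =
        List.replicate (M.count (3 * j)) 0 := by
      rw [hw', hY0, List.append_nil, List.flatMap_append, flat_nil _ (pl P) (by
        intro c hc
        unfold pl at hc
        rw [List.mem_flatMap] at hc
        obtain ⟨i, _, hi⟩ := hc
        have : c = 3 * i + 2 ∨ c = 3 * i + 1 := by simpa using hi
        rw [if_neg (by omega)]), List.nil_append]
      clear hMY hf1 hMf hw' hM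
      induction M with
      | nil => rfl
      | cons c M ih =>
        rw [List.flatMap_cons, ih]
        by_cases hc : c = 3 * j
        · rw [if_pos hc, hc, List.count_cons_self, List.replicate_succ]
          rfl
        · rw [if_neg hc, List.count_cons_of_ne hc, List.nil_append]
    rw [e1, e2] at h1
    have h2 := h1.append (RR.refl (β := β) [1])
    obtain ⟨v', hv'⟩ := hO2 _ h2.symm
    exact rep_two hv'
  | cons q Q' =>
    have hqD : q ∈ D := hP.mem_iff.1 (List.mem_append_right _ List.mem_cons_self)
    have hqP : q ∉ P := fun h => hPQ q h List.mem_cons_self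
    have h1 := proj hD hP (hr j hj) q hqD
    rw [if_neg hqP] at h1
    obtain ⟨v', hv'⟩ := hO2 _ h1.symm
    cases Y with
    | nil => exact absurd hYq (by simp [pr])
    | cons b Y' =>
      have hb := hY b Y' rfl
      have hnb : nz b = true := by
        unfold nz
        simp
        omega
      rw [List.filter_cons_of_pos hnb] at hYq
      have e : pr (q :: Q') = (3 * q + 1) :: (3 * q + 2) :: pr Q' := rfl
      rw [e] at hYq
      have hbq := (List.cons_eq_cons.1 hYq).1
      rw [hw', List.flatMap_append, flat_nil _ (pl P) (by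
        intro c hc
        unfold pl at hc
        rw [List.mem_flatMap] at hc
        obtain ⟨i, hiP, hi⟩ := hc
        have hiq : i ≠ q := fun h => hqP (h ▸ hiP)
        have : c = 3 * i + 2 ∨ c = 3 * i + 1 := by simpa using hi
        unfold gg
        rw [if_neg (by omega), if_neg (by omega)]), List.nil_append, List.flatMap_append,
        flat_M _ _ (by omega) (by omega) M hM, List.flatMap_cons, hbq] at hv'
      have e3 : gg (3 * q + 1) (3 * j) (3 * q + 1) = [1] := by
        unfold gg
        rw [if_pos rfl]
      rw [e3] at hv'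
      exact rep_two hv'

end Pool.Agent.MWI.H75
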